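import Pool.Agent.Helper18.ND.USpec

/-!
# ND2, part U2: integrals of periodic functions over shifted cubes
-/

set_option autoImplicit false

namespace Pool.Agent.Helper85.ND.U2

open MeasureTheory Set Filter Topology Pool.Agent.Helper28.ND Pool.Agent.Helper18.ND
open scoped ENNReal NNReal

noncomputable section

/-- integer vectors -/
def Z (d : ℕ) : AddSubgroup (Fin d → ℝ) where
  carrier := {v | ∃ k : Fin d → ℤ, v = fun i => (k i : ℝ)}
  add_mem' := by
    rintro _ _ ⟨k, rfl⟩ ⟨l, rfl⟩
    exact ⟨k + l, by funext i; simp⟩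
  zero_mem' := ⟨0, by funext i; simp⟩
  neg_mem' := by
    rintro _ ⟨k, rfl⟩
    exact ⟨-k, by funext i; simp⟩

instance (d : ℕ) : Countable (Z d) := by
  have : Function.Surjective (fun k : Fin d → ℤ =>
      (⟨fun i => (k i : ℝ), ⟨k, rfl⟩⟩ : Z d)) := by
    rintro ⟨v, k, rfl⟩
    exact ⟨k, rfl⟩
  exact this.countable

/-- the shifted cube -/
def Qs (d : ℕ) (a : Fin d → ℝ) : Set (Fin d → ℝ) :=
  Set.pi Set.univ (fun i => Set.Ioc (a i) (a i + 1))

theorem fund (d : ℕ) (a : Fin d → ℝ) :
    IsAddFundamentalDomain (Z d) (Qs d a) (volume : Measure (Fin d → ℝ)) := by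
  refine IsAddFundamentalDomain.mk' ?_ ?_
  · exact (MeasurableSet.univ_pi fun i => measurableSet_Ioc).nullMeasurableSet
  · intro x
    have h : ∀ i, ∃! m : ℤ, x i + m • (1 : ℝ) ∈ Set.Ioc (a i) (a i + 1) := fun i =>
      existsUnique_add_zsmul_mem_Ioc one_pos (x i) (a i)
    choose k hk hk' using h
    refine ⟨⟨fun i => (k i : ℝ), ⟨k, rfl⟩⟩, ?_, ?_⟩
    · simp only [Qs, Set.mem_pi, Set.mem_univ, forall_true_left]
      intro i
      have := hk i
      simp only [zsmul_eq_mul, mul_one] at this
      change (k i : ℝ) + x i ∈ Set.Ioc (a i) (a i + 1)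
      rw [add_comm (k i : ℝ) (x i)]
      exact this
    · rintro ⟨v, l, rfl⟩ hv
      have : l = k := by
        funext i
        apply hk' i
        simp only [Qs, Set.mem_pi, Set.mem_univ, forall_true_left] at hv
        have h1 := hv i
        change (l i : ℝ) + x i ∈ Set.Ioc (a i) (a i + 1) at h1
        simp only [zsmul_eq_mul, mul_one]
        rw [add_comm (x i) (l i : ℝ)]
        exact h1
      subst this
      rfl

theorem Q_eq (d : ℕ) : Q d = Qs d 0 := by
  unfold Q Qs
  simp

theorem pre_eq (d : ℕ) (a : Fin d → ℝ) : (fun x : Fin d → ℝ => x + a) ⁻¹' (Qs d a) = Q d := by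
  ext x
  simp only [Qs, Q, Set.mem_preimage, Set.mem_pi, Set.mem_univ, forall_true_left, Pi.add_apply,
    Set.mem_Ioc]
  constructor
  · intro h i
    have := h i
    constructor <;> linarith [this.1, this.2]
  · intro h i
    have := h i
    constructor <;> linarith [this.1, this.2]

theorem per_vadd {d : ℕ} {E : Type} {h : (Fin d → ℝ) → E} (hh : Per h) (g : Z d)
    (x : Fin d → ℝ) : h (g +ᵥ x) = h x := by
  obtain ⟨v, k, rfl⟩ := g
  have := hh x k
  rw [← this]
  congr 1
  funext i
  change (k i : ℝ) + x i = x i + (k i : ℝ)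
  rw [add_comm]

theorem main : S_U2 := by
  intro d a
  have hmp : MeasurePreserving (fun x : Fin d → ℝ => x + a) volume volume :=
    measurePreserving_add_right volume a
  have hemb : MeasurableEmbedding (fun x : Fin d → ℝ => x + a) :=
    measurableEmbedding_addRight a
  refine ⟨?_, ?_⟩
  · intro h hh
    have h1 := hmp.setIntegral_preimage_emb hemb h (Qs d a)
    rw [pre_eq] at h1
    rw [h1, Q_eq]
    exact (fund d a).setIntegral_eq (fund d 0) (fun g x => per_vadd hh g x)
  · intro h _ hh
    have h1 := hmp.setLIntegral_comp_preimage_emb hemb h (Qs d a)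
    rw [pre_eq] at h1
    rw [h1, Q_eq]
    exact (fund d a).setLIntegral_eq (fund d 0) h (fun g x => per_vadd hh g x)

end

end Pool.Agent.Helper85.ND.U2
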