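import Pool.Agent.Helper18.ND.USpec
import Pool.Agent.Helper87.ND.MOLG

/-!
# ND2, part U3: convergence of the mollifications in `L^r`, `r = 1, 2`
-/

set_option autoImplicit false

namespace Pool.Agent.Helper85.ND.U3

open MeasureTheory Set Filter Topology Pool.Agent.Helper28.ND Pool.Agent.Helper18.ND
open Pool.Agent.Helper87.ND.MOLG
open scoped ENNReal NNReal Convolution

noncomputable section

variable {d : ℕ}

/-- iterated integrals are integrals over the product -/
theorem fub {A : Set ℝ} (F : ℝ × (Fin d → ℝ) → ℝ≥0∞)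
    (hF : Measurable F) : ∫⁻ t in A, ∫⁻ x in Q d, F (t, x) = ∫⁻ z in A ×ˢ Q d, F z := by
  rw [Measure.volume_eq_prod, ← Measure.prod_restrict, lintegral_prod _ hF.aemeasurable]

theorem eta_mass (d n : ℕ) : ∫⁻ w, ENNReal.ofReal (eta d n w) = 1 := by
  rw [← ofReal_integral_eq_lintegral_ofReal (eta_integrable d n)
    (Eventually.of_forall fun w => eta_nonneg d n w), eta_int, ENNReal.ofReal_one]

theorem meas_eta (d n : ℕ) : Measurable (eta d n) := (eta_smooth d n).continuous.measurable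

/-- Jensen's inequality for the exponents `1` and `2` -/
theorem jensen {n r : ℕ} (hr : r = 1 ∨ r = 2) (a : ℝ × (Fin d → ℝ) → ℝ≥0∞) (ha : Measurable a) :
    (∫⁻ w, ENNReal.ofReal (eta d n w) * a w) ^ r ≤ ∫⁻ w, ENNReal.ofReal (eta d n w) * a w ^ r := by
  rcases hr with rfl | rfl
  · simp
  · have hm : Measurable fun w => ENNReal.ofReal (eta d n w) := (meas_eta d n).ennreal_ofReal
    have h1 : ∀ b : ℝ × (Fin d → ℝ) → ℝ≥0∞, Measurable b →
        ∫⁻ w, b w ∂((volume : Measure (ℝ × (Fin d → ℝ))).withDensity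
          (fun w => ENNReal.ofReal (eta d n w))) = ∫⁻ w, ENNReal.ofReal (eta d n w) * b w := by
      intro b hb
      rw [lintegral_withDensity_eq_lintegral_mul _ hm hb]
      rfl
    rw [← h1 a ha, ← h1 (fun w => a w ^ 2) (ha.pow_const 2)]
    have h2 := ENNReal.lintegral_mul_le_Lp_mul_Lq
      ((volume : Measure (ℝ × (Fin d → ℝ))).withDensity (fun w => ENNReal.ofReal (eta d n w)))
      (p := 2) (q := 2) (Real.HolderConjugate.two_two) (f := a) (g := fun _ => 1)
      ha.aemeasurable aemeasurable_const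
    have h3 : ∫⁻ w, (1 : ℝ≥0∞) ^ (2 : ℝ) ∂((volume : Measure (ℝ × (Fin d → ℝ))).withDensity
          (fun w => ENNReal.ofReal (eta d n w))) = 1 := by
      rw [h1 (fun _ => (1 : ℝ≥0∞) ^ (2 : ℝ)) measurable_const]
      simp only [ENNReal.one_rpow, mul_one]
      exact eta_mass d n
    rw [h3, ENNReal.one_rpow, mul_one] at h2
    simp only [Pi.mul_apply, mul_one] at h2
    have h5 := ENNReal.rpow_le_rpow h2 (show (0 : ℝ) ≤ 2 by norm_num)
    rw [← ENNReal.rpow_mul] at h5
    norm_num at h5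
    exact_mod_cast h5

/-- the mollification is a contraction -/
theorem contr (h2 : S_U2) {n r : ℕ} (hr : r = 1 ∨ r = 2) (g : ℝ → (Fin d → ℝ) → ℝ)
    (hg : Measurable (U g)) (hper : ∀ t, Per (g t)) :
    ∫⁻ z in (univ : Set ℝ) ×ˢ Q d, ‖U (mol n g) z‖ₑ ^ r ≤
      ∫⁻ z in (univ : Set ℝ) ×ˢ Q d, ‖U g z‖ₑ ^ r := by
  have hpt : ∀ z : ℝ × (Fin d → ℝ), ‖U (mol n g) z‖ₑ ^ r ≤
      ∫⁻ w, ENNReal.ofReal (eta d n w) * ‖U g (z - w)‖ₑ ^ r := by
    intro z
    have hm : Measurable fun w : ℝ × (Fin d → ℝ) => ‖U g (z - w)‖ₑ :=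
      (hg.comp (measurable_const.sub measurable_id)).enorm
    refine le_trans ?_ (jensen (n := n) hr _ hm)
    refine pow_le_pow_left' ?_ r
    have h := enorm_integral_le_lintegral_enorm (μ := (volume : Measure (ℝ × (Fin d → ℝ))))
      (fun w : ℝ × (Fin d → ℝ) => eta d n w * g (z.1 - w.1) (z.2 - w.2))
    refine h.trans (le_of_eq ?_)
    refine lintegral_congr fun w => ?_
    rw [enorm_mul, Real.enorm_of_nonneg (eta_nonneg d n w)]
    rfl
  refine (lintegral_mono hpt).trans ?_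
  have hjm : Measurable (Function.uncurry fun (z w : ℝ × (Fin d → ℝ)) =>
      ENNReal.ofReal (eta d n w) * ‖U g (z - w)‖ₑ ^ r) := by
    have hj : Measurable fun p : (ℝ × (Fin d → ℝ)) × (ℝ × (Fin d → ℝ)) =>
        ENNReal.ofReal (eta d n p.2) * ‖U g (p.1 - p.2)‖ₑ ^ r := by
      have j1 : Measurable fun p : (ℝ × (Fin d → ℝ)) × (ℝ × (Fin d → ℝ)) =>
          ENNReal.ofReal (eta d n p.2) := ((meas_eta d n).comp measurable_snd).ennreal_ofReal
      have j2 : Measurable fun p : (ℝ × (Fin d → ℝ)) × (ℝ × (Fin d → ℝ)) =>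
          ‖U g (p.1 - p.2)‖ₑ ^ r :=
        ((hg.comp (measurable_fst.sub measurable_snd)).enorm).pow_const r
      exact j1.mul j2
    exact hj
  rw [lintegral_lintegral_swap hjm.aemeasurable]
  have hin : ∀ w : ℝ × (Fin d → ℝ), ∫⁻ z in (univ : Set ℝ) ×ˢ Q d,
      ENNReal.ofReal (eta d n w) * ‖U g (z - w)‖ₑ ^ r = ENNReal.ofReal (eta d n w) *
      ∫⁻ z in (univ : Set ℝ) ×ˢ Q d, ‖U g z‖ₑ ^ r := by
    intro w
    have hm1 : Measurable fun z : ℝ × (Fin d → ℝ) => ‖U g (z - w)‖ₑ ^ r :=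
      ((hg.comp (measurable_id.sub measurable_const)).enorm).pow_const r
    rw [lintegral_const_mul _ hm1]
    congr 1
    rw [← fub (A := univ) (fun z => ‖U g (z - w)‖ₑ ^ r) hm1,
      ← fub (A := univ) (fun z => ‖U g z‖ₑ ^ r) ((hg.enorm).pow_const r)]
    rw [Measure.restrict_univ]
    have h3 : ∀ t : ℝ, ∫⁻ x in Q d, ‖U g ((t, x) - w)‖ₑ ^ r =
        ∫⁻ x in Q d, ‖U g (t - w.1, x)‖ₑ ^ r := by
      intro t
      have hm2 : Measurable fun x : Fin d → ℝ => ‖U g (t - w.1, x)‖ₑ ^ r :=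
        ((hg.comp (measurable_const.prodMk measurable_id)).enorm).pow_const r
      have hp2 : Per (fun x : Fin d → ℝ => ‖U g (t - w.1, x)‖ₑ ^ r) := by
        intro x k
        have := hper (t - w.1) x k
        simp only [U]
        rw [this]
      have h4 := (h2 d (-w.2)).2 _ hm2 hp2
      rw [← h4]
      refine lintegral_congr fun x => ?_
      simp only [← sub_eq_add_neg]
      rfl
    simp_rw [h3]
    exact lintegral_sub_right_eq_self (fun t => ∫⁻ x in Q d, ‖U g (t, x)‖ₑ ^ r) w.1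
  simp_rw [hin]
  have hm3 : Measurable fun w => ENNReal.ofReal (eta d n w) := (meas_eta d n).ennreal_ofReal
  rw [lintegral_mul_const _ hm3, eta_mass, one_mul]

/-- the bounded part -/
def tr (k : ℕ) (f : ℝ → (Fin d → ℝ) → ℝ) (t : ℝ) (x : Fin d → ℝ) : ℝ :=
  if |f t x| ≤ k then f t x else 0

/-- the rest -/
def rm (k : ℕ) (f : ℝ → (Fin d → ℝ) → ℝ) (t : ℝ) (x : Fin d → ℝ) : ℝ :=
  if |f t x| ≤ k then 0 else f t x

theorem tr_add_rm (k : ℕ) (f : ℝ → (Fin d → ℝ) → ℝ) (t : ℝ) (x : Fin d → ℝ) :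
    f t x = tr k f t x + rm k f t x := by
  unfold tr rm
  split_ifs <;> simp

theorem meas_tr (k : ℕ) {f : ℝ → (Fin d → ℝ) → ℝ} (hf : Measurable (U f)) :
    Measurable (U (tr k f)) := by
  have hs : MeasurableSet {z : ℝ × (Fin d → ℝ) | |U f z| ≤ k} :=
    measurableSet_le (continuous_abs.measurable.comp hf) measurable_const
  exact Measurable.ite hs hf measurable_const

theorem meas_rm (k : ℕ) {f : ℝ → (Fin d → ℝ) → ℝ} (hf : Measurable (U f)) :
    Measurable (U (rm k f)) := by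
  have hs : MeasurableSet {z : ℝ × (Fin d → ℝ) | |U f z| ≤ k} :=
    measurableSet_le (continuous_abs.measurable.comp hf) measurable_const
  exact Measurable.ite hs measurable_const hf

theorem per_tr (k : ℕ) {f : ℝ → (Fin d → ℝ) → ℝ} (hf : ∀ t, Per (f t)) (t : ℝ) :
    Per (tr k f t) := by
  intro x l
  unfold tr
  rw [hf t x l]

theorem per_rm (k : ℕ) {f : ℝ → (Fin d → ℝ) → ℝ} (hf : ∀ t, Per (f t)) (t : ℝ) :
    Per (rm k f t) := by
  intro x l
  unfold rm
  rw [hf t x l]

theorem bmp_tr (k : ℕ) {f : ℝ → (Fin d → ℝ) → ℝ} (hf : Measurable (U f))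
    (hp : ∀ t, Per (f t)) : BMP (tr k f) where
  meas := meas_tr k hf
  per := per_tr k hp
  bdd := ⟨k, fun t x => by
    unfold tr
    split_ifs with h
    · exact h
    · simp⟩

theorem PL_mono {r : ℕ} {T : ℝ} {f g : ℝ → (Fin d → ℝ) → ℝ} (hf : PL r T f)
    (hm : Measurable (U g)) (hp : ∀ t, Per (g t)) (hle : ∀ t x, ‖g t x‖ₑ ≤ ‖f t x‖ₑ) :
    PL r T g where
  meas := hm
  per := hp
  off := by
    intro t ht x
    have h1 := hle t x
    rw [hf.off t ht x, enorm_zero] at h1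
    exact enorm_eq_zero.1 (le_antisymm h1 bot_le)
  int := lt_of_le_of_lt (lintegral_mono fun t => lintegral_mono fun x =>
    pow_le_pow_left' (hle t x) r) hf.int

/-- the bound for the mollifications of bounded functions -/
theorem mol_bdd {D : ℝ → (Fin d → ℝ) → ℝ} {B : ℝ} (hB : ∀ t x, |D t x| ≤ B) (n : ℕ) (t : ℝ)
    (x : Fin d → ℝ) : |mol n D t x| ≤ B := by
  have h2 : ∀ᵐ w : ℝ × (Fin d → ℝ), ‖eta d n w * D (t - w.1) (x - w.2)‖ ≤ eta d n w * B := by
    refine Eventually.of_forall fun w => ?_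
    rw [norm_mul, Real.norm_of_nonneg (eta_nonneg d n w), Real.norm_eq_abs]
    exact mul_le_mul_of_nonneg_left (hB _ _) (eta_nonneg d n w)
  have h5 := norm_integral_le_of_norm_le ((eta_integrable d n).mul_const B) h2
  rw [integral_mul_const, eta_int, one_mul, Real.norm_eq_abs] at h5
  exact h5

/-- the mollification of a sum -/
theorem mol_add {f g h : ℝ → (Fin d → ℝ) → ℝ} (hfg : ∀ t x, f t x = g t x + h t x)
    (hg : LocallyIntegrable (U g) (volume : Measure (ℝ × (Fin d → ℝ))))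
    (hh : LocallyIntegrable (U h) (volume : Measure (ℝ × (Fin d → ℝ)))) (n : ℕ) (t : ℝ)
    (x : Fin d → ℝ) : mol n f t x = mol n g t x + mol n h t x := by
  have i1 : Integrable (fun w : ℝ × (Fin d → ℝ) => eta d n w * g (t - w.1) (x - w.2)) :=
    (eta_cs d n).convolutionExists_left (ContinuousLinearMap.lsmul ℝ ℝ)
      (eta_smooth d n).continuous hg (t, x)
  have i2 : Integrable (fun w : ℝ × (Fin d → ℝ) => eta d n w * h (t - w.1) (x - w.2)) :=
    (eta_cs d n).convolutionExists_left (ContinuousLinearMap.lsmul ℝ ℝ)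
      (eta_smooth d n).continuous hh (t, x)
  have i3 := integral_add i1 i2
  unfold mol
  refine Eq.trans ?_ i3
  refine integral_congr_ae (Eventually.of_forall fun w => ?_)
  change eta d n w * f (t - w.1) (x - w.2) = _
  rw [hfg]
  ring

theorem pow3 {r : ℕ} (hr : r = 1 ∨ r = 2) (a b c : ℝ≥0∞) :
    (a + b + c) ^ r ≤ 9 * (a ^ r + b ^ r + c ^ r) := by
  have h1 : a + b + c ≤ 3 * max a (max b c) := by
    have ha : a ≤ max a (max b c) := le_max_left _ _
    have hb : b ≤ max a (max b c) := (le_max_left _ _).trans (le_max_right _ _)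
    have hc : c ≤ max a (max b c) := (le_max_right _ _).trans (le_max_right _ _)
    calc a + b + c ≤ max a (max b c) + max a (max b c) + max a (max b c) :=
          add_le_add (add_le_add ha hb) hc
      _ = 3 * max a (max b c) := by ring
  have h2 : (max a (max b c)) ^ r ≤ a ^ r + b ^ r + c ^ r := by
    rcases max_choice a (max b c) with h | h
    · rw [h]; exact le_self_add.trans le_self_add
    · rw [h]
      rcases max_choice b c with h' | h'
      · rw [h']; exact (le_add_self).trans le_self_add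
      · rw [h']; exact le_add_self
  have h3 : (3 : ℝ≥0∞) ^ r ≤ 9 := by
    rcases hr with rfl | rfl
    · norm_num
    · norm_num
  calc (a + b + c) ^ r ≤ (3 * max a (max b c)) ^ r := pow_le_pow_left' h1 r
    _ = 3 ^ r * (max a (max b c)) ^ r := mul_pow _ _ _
    _ ≤ 9 * (a ^ r + b ^ r + c ^ r) := mul_le_mul' h3 h2

theorem meas_Q (d : ℕ) : MeasurableSet (Q d) :=
  MeasurableSet.univ_pi fun _ => measurableSet_Ioc

theorem vol_fin (T : ℝ) : (volume : Measure (ℝ × (Fin d → ℝ))) (Ioo (-1) (T + 1) ×ˢ Q d) < ⊤ := by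
  rw [Measure.volume_eq_prod, Measure.prod_prod]
  refine ENNReal.mul_lt_top ?_ ?_
  · rw [Real.volume_Ioo]; exact ENNReal.ofReal_lt_top
  · unfold Q
    rw [volume_pi_pi]
    exact ENNReal.prod_lt_top fun i _ => by rw [Real.volume_Ioc]; exact ENNReal.ofReal_lt_top

theorem main (h1 : S_U1) (h2 : S_U2) (hM : S_MOLG) : S_U3 := by
  intro r d T f hr hT hf
  have hr0 : r ≠ 0 := by rcases hr with rfl | rfl <;> norm_num
  -- the norm of the rest tends to zero
  have hrest : Tendsto (fun k : ℕ => ∫⁻ z in (univ : Set ℝ) ×ˢ Q d, ‖U (rm k f) z‖ₑ ^ r)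
      atTop (𝓝 0) := by
    have hle : ∀ (k : ℕ) z, ‖U (rm k f) z‖ₑ ^ r ≤ ‖U f z‖ₑ ^ r := by
      intro k z
      refine pow_le_pow_left' ?_ r
      change ‖rm k f z.1 z.2‖ₑ ≤ ‖f z.1 z.2‖ₑ
      unfold rm
      split_ifs
      · simp
      · exact le_rfl
    have hfin : ∫⁻ z in (univ : Set ℝ) ×ˢ Q d, ‖U f z‖ₑ ^ r ≠ ⊤ := by
      rw [← fub (A := univ) (fun z => ‖U f z‖ₑ ^ r) ((hf.meas.enorm).pow_const r),
        Measure.restrict_univ]
      have h3 : ∫⁻ t, ∫⁻ x in Q d, ‖U f (t, x)‖ₑ ^ r =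
          ∫⁻ t in Ioo 0 T, ∫⁻ x in Q d, ‖f t x‖ₑ ^ r := by
        rw [← lintegral_indicator measurableSet_Ioo]
        refine lintegral_congr fun t => ?_
        by_cases ht : t ∈ Ioo 0 T
        · rw [indicator_of_mem ht]; rfl
        · rw [indicator_of_notMem ht]
          have : ∀ x, ‖U f (t, x)‖ₑ ^ r = 0 := by
            intro x
            have h4 : f t x = 0 := by
              apply hf.off
              rw [mem_Ioo, not_and_or, not_lt, not_lt] at ht
              exact ht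
            change ‖f t x‖ₑ ^ r = 0
            rw [h4, enorm_zero, zero_pow hr0]
          simp [this]
      rw [h3]
      exact hf.int.ne
    have h3 := tendsto_lintegral_of_dominated_convergence
      (μ := (volume : Measure (ℝ × (Fin d → ℝ))).restrict ((univ : Set ℝ) ×ˢ Q d))
      (F := fun (k : ℕ) z => ‖U (rm k f) z‖ₑ ^ r) (f := fun _ => 0)
      (fun z => ‖U f z‖ₑ ^ r) (fun k => ((meas_rm k hf.meas).enorm).pow_const r)
      (fun k => Eventually.of_forall fun z => hle k z) hfin ?_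
    · simpa using h3
    · refine Eventually.of_forall fun z => ?_
      obtain ⟨K, hK⟩ := exists_nat_ge |U f z|
      refine tendsto_const_nhds.congr' ?_
      filter_upwards [eventually_ge_atTop K] with k hk
      have h4 : U (rm k f) z = 0 := by
        change rm k f z.1 z.2 = 0
        unfold rm
        rw [if_pos]
        have h5 : (K : ℝ) ≤ k := by exact_mod_cast hk
        exact hK.trans h5
      rw [h4, enorm_zero, zero_pow hr0]
  rw [ENNReal.tendsto_nhds_zero]
  intro ε hε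
  set δ : ℝ≥0∞ := ε / 27 with hδdef
  have hδ : 0 < δ := ENNReal.div_pos hε.ne' (by norm_num)
  obtain ⟨k, hk⟩ := ((ENNReal.tendsto_nhds_zero.1 hrest) δ hδ).exists
  have hB := bmp_tr k hf.meas hf.per
  obtain ⟨hS, -, hae, -⟩ := hM d (tr k f) hB
  have hPt : PL r T (tr k f) := PL_mono hf (meas_tr k hf.meas) (per_tr k hf.per) (by
    intro t x; unfold tr; split_ifs <;> simp)
  have hPr : PL r T (rm k f) := PL_mono hf (meas_rm k hf.meas) (per_rm k hf.per) (by
    intro t x; unfold rm; split_ifs <;> simp)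
  have hlt := (h1 r d T (tr k f) hr hT hPt).1
  have hlr := (h1 r d T (rm k f) hr hT hPr).1
  -- the bounded part
  have hmain : Tendsto (fun n : ℕ => ∫⁻ z in Ioo (-1) (T + 1) ×ˢ Q d,
      ‖U (mol n (tr k f)) z - U (tr k f) z‖ₑ ^ r) atTop (𝓝 0) := by
    have hbd : ∀ t x, |tr k f t x| ≤ k := by
      intro t x
      unfold tr
      split_ifs with h
      · exact h
      · simp
    have h3 := tendsto_lintegral_of_dominated_convergence
      (μ := (volume : Measure (ℝ × (Fin d → ℝ))).restrict (Ioo (-1) (T + 1) ×ˢ Q d))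
      (F := fun (n : ℕ) z => ‖U (mol n (tr k f)) z - U (tr k f) z‖ₑ ^ r) (f := fun _ => 0)
      (fun _ => (ENNReal.ofReal (2 * k)) ^ r)
      (fun n => (((hS n).smooth.continuous.measurable.sub (meas_tr k hf.meas)).enorm).pow_const r)
      (fun n => Eventually.of_forall fun z => ?_) ?_ ?_
    · simpa using h3
    · refine pow_le_pow_left' ?_ r
      rw [Real.enorm_eq_ofReal_abs]
      apply ENNReal.ofReal_le_ofReal
      have h4 := mol_bdd hbd n z.1 z.2
      have h5 := hbd z.1 z.2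
      have h6 : |U (mol n (tr k f)) z - U (tr k f) z| ≤
          |mol n (tr k f) z.1 z.2| + |tr k f z.1 z.2| := abs_sub _ _
      linarith
    · rw [lintegral_const, Measure.restrict_apply_univ]
      exact (ENNReal.mul_lt_top (ENNReal.pow_lt_top ENNReal.ofReal_lt_top) (vol_fin T)).ne
    · have h4 := ae_restrict_of_ae (s := Ioo (-1) (T + 1) ×ˢ Q d) hae
      filter_upwards [h4] with z hz
      have h5 : Tendsto (fun n => U (mol n (tr k f)) z - U (tr k f) z) atTop (𝓝 0) := by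
        have := hz.sub_const (U (tr k f) z)
        rwa [sub_self] at this
      have h6 := ENNReal.Tendsto.pow (n := r) h5.enorm
      rw [enorm_zero, zero_pow hr0] at h6
      exact h6
  filter_upwards [(ENNReal.tendsto_nhds_zero.1 hmain) δ hδ] with n hn
  have hmolm : Measurable (U (mol n f)) :=
    ((h1 r d T f hr hT hf).2.1 n).smooth.continuous.measurable
  have hmolr : Measurable (U (mol n (rm k f))) :=
    ((h1 r d T (rm k f) hr hT hPr).2.1 n).smooth.continuous.measurable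
  have hmolt : Measurable (U (mol n (tr k f))) := (hS n).smooth.continuous.measurable
  rw [show (∫⁻ t in Ioo (-1) (T + 1), ∫⁻ x in Q d, ‖mol n f t x - f t x‖ₑ ^ r) =
      ∫⁻ z in Ioo (-1) (T + 1) ×ˢ Q d, ‖U (mol n f) z - U f z‖ₑ ^ r from
    fub (A := Ioo (-1) (T + 1)) (fun z => ‖U (mol n f) z - U f z‖ₑ ^ r)
      (((hmolm.sub hf.meas).enorm).pow_const r)]
  have hpt : ∀ z, ‖U (mol n f) z - U f z‖ₑ ^ r ≤ 9 * (‖U (mol n (tr k f)) z - U (tr k f) z‖ₑ ^ r +
      ‖U (mol n (rm k f)) z‖ₑ ^ r + ‖U (rm k f) z‖ₑ ^ r) := by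
    intro z
    refine le_trans ?_ (pow3 hr _ _ _)
    refine pow_le_pow_left' ?_ r
    have e1 : U (mol n f) z = U (mol n (tr k f)) z + U (mol n (rm k f)) z :=
      mol_add (tr_add_rm k f) hlt hlr n z.1 z.2
    have e2 : U f z = U (tr k f) z + U (rm k f) z := tr_add_rm k f z.1 z.2
    have e3 : U (mol n f) z - U f z = (U (mol n (tr k f)) z - U (tr k f) z) +
        U (mol n (rm k f)) z + (- U (rm k f) z) := by
      rw [e1, e2]; ring
    rw [e3]
    refine (enorm_add_le _ _).trans ?_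
    rw [enorm_neg]
    exact add_le_add (enorm_add_le _ _) le_rfl
  have hsub : Ioo (-1) (T + 1) ×ˢ Q d ⊆ (univ : Set ℝ) ×ˢ Q d :=
    prod_mono (subset_univ _) subset_rfl
  have i2 : ∫⁻ z in Ioo (-1) (T + 1) ×ˢ Q d, ‖U (mol n (rm k f)) z‖ₑ ^ r ≤ δ :=
    ((lintegral_mono_set hsub).trans (contr h2 hr (rm k f) hPr.meas hPr.per)).trans hk
  have i3 : ∫⁻ z in Ioo (-1) (T + 1) ×ˢ Q d, ‖U (rm k f) z‖ₑ ^ r ≤ δ :=
    (lintegral_mono_set hsub).trans hk
  refine (lintegral_mono hpt).trans ?_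
  have m1 : Measurable fun z => ‖U (mol n (tr k f)) z - U (tr k f) z‖ₑ ^ r :=
    ((hmolt.sub (meas_tr k hf.meas)).enorm).pow_const r
  have m2 : Measurable fun z => ‖U (mol n (rm k f)) z‖ₑ ^ r := (hmolr.enorm).pow_const r
  have m3 : Measurable fun z => ‖U (rm k f) z‖ₑ ^ r := ((meas_rm k hf.meas).enorm).pow_const r
  rw [lintegral_const_mul' _ _ (by norm_num), lintegral_add_right _ m3, lintegral_add_left m1]
  calc 9 * ((∫⁻ z in Ioo (-1) (T + 1) ×ˢ Q d, ‖U (mol n (tr k f)) z - U (tr k f) z‖ₑ ^ r) +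
        (∫⁻ z in Ioo (-1) (T + 1) ×ˢ Q d, ‖U (mol n (rm k f)) z‖ₑ ^ r) +
        ∫⁻ z in Ioo (-1) (T + 1) ×ˢ Q d, ‖U (rm k f) z‖ₑ ^ r) ≤ 9 * (δ + δ + δ) :=
      mul_le_mul' le_rfl (add_le_add (add_le_add hn i2) i3)
    _ = 27 * δ := by ring
    _ = ε := by
        rw [hδdef]
        exact ENNReal.mul_div_cancel (by norm_num) (by norm_num)

end

end Pool.Agent.Helper85.ND.U3
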