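import Pool.Agent.Helper18.ND.USpec
import Pool.Agent.Helper85.ND.U3

/-!
# ND2, part U6: the drift term
-/

set_option autoImplicit false

namespace Pool.Agent.Helper85.ND.U6

open MeasureTheory Set Filter Topology Pool.Agent.Helper28.ND Pool.Agent.Helper18.ND
open Pool.Agent.Helper85.ND.U3
open scoped ENNReal NNReal

noncomputable section

variable {d : ℕ}

theorem pd_mul {f g : (Fin d → ℝ) → ℝ} {x : Fin d → ℝ} (hf : DifferentiableAt ℝ f x)
    (hg : DifferentiableAt ℝ g x) (i : Fin d) :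
    pd i (fun y => f y * g y) x = f x * pd i g x + g x * pd i f x := by
  unfold pd
  rw [fderiv_fun_mul hf hg]
  simp

theorem slice {F : ℝ → (Fin d → ℝ) → ℝ} (hF : ContDiff ℝ (⊤ : ℕ∞) (U F)) (t : ℝ)
    (x : Fin d → ℝ) : DifferentiableAt ℝ (F t) x := by
  have h1 : ContDiff ℝ (⊤ : ℕ∞) (fun y : Fin d → ℝ => U F (t, y)) :=
    hF.comp (contDiff_const.prodMk contDiff_id)
  exact (h1.differentiable (by simp)).differentiableAt

/-- continuity of the partial derivatives -/
theorem pd_cont {F : ℝ → (Fin d → ℝ) → ℝ} (hF : ContDiff ℝ (⊤ : ℕ∞) (U F)) (i : Fin d) :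
    Continuous (fun z : ℝ × (Fin d → ℝ) => pd i (F z.1) z.2) := by
  have h0 : Differentiable ℝ (U F) := hF.differentiable (by simp)
  have h1 : ∀ z : ℝ × (Fin d → ℝ), pd i (F z.1) z.2 =
      fderiv ℝ (U F) z ((0 : ℝ), Pi.single i (1 : ℝ)) := by
    intro z
    unfold pd
    have h2 : HasFDerivAt (fun y : Fin d → ℝ => U F (z.1, y))
        ((fderiv ℝ (U F) z).comp (ContinuousLinearMap.inr ℝ ℝ (Fin d → ℝ))) z.2 := by
      have h3 : HasFDerivAt (U F) (fderiv ℝ (U F) (z.1, z.2)) (z.1, z.2) :=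
        (h0 (z.1, z.2)).hasFDerivAt
      exact h3.comp z.2 (hasFDerivAt_prodMk_right z.1 z.2)
    have h4 : F z.1 = fun y : Fin d → ℝ => U F (z.1, y) := rfl
    rw [h4, h2.fderiv]
    rfl
  have h5 : Continuous (fderiv ℝ (U F)) := hF.continuous_fderiv (by simp)
  simp_rw [h1]
  exact h5.clm_apply continuous_const

theorem bdd_on {F : ℝ × (Fin d → ℝ) → ℝ} (hF : Continuous F) (T : ℝ) :
    ∃ C : ℝ, 0 ≤ C ∧ ∀ z ∈ Ioo 0 T ×ˢ Q d, ‖F z‖ ≤ C := by
  have hK : IsCompact (Icc (0 : ℝ) T ×ˢ (Set.pi Set.univ fun _ : Fin d => Icc (0 : ℝ) 1)) :=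
    isCompact_Icc.prod (isCompact_univ_pi fun _ => isCompact_Icc)
  obtain ⟨C, hC⟩ := hK.exists_bound_of_continuousOn hF.continuousOn
  refine ⟨max C 0, le_max_right _ _, fun z hz => (hC z ?_).trans (le_max_left _ _)⟩
  refine ⟨Ioo_subset_Icc_self hz.1, ?_⟩
  have h2 := hz.2
  simp only [Q, Set.mem_pi, Set.mem_univ, forall_true_left] at h2 ⊢
  exact fun i => Ioc_subset_Icc_self (h2 i)

/-- the measure on `(0,T) × Q` -/
abbrev nu (d : ℕ) (T : ℝ) : Measure (ℝ × (Fin d → ℝ)) :=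
  (volume : Measure (ℝ × (Fin d → ℝ))).restrict (Ioo 0 T ×ˢ Q d)

theorem memLp_of {T : ℝ} {F : ℝ × (Fin d → ℝ) → ℝ} (hF : Measurable F)
    (h : (∫⁻ t in Ioo 0 T, ∫⁻ x in Q d, ‖F (t, x)‖ₑ ^ 2) < ⊤) : MemLp F 2 (nu d T) := by
  refine ⟨hF.aestronglyMeasurable, ?_⟩
  rw [eLpNorm_lt_top_iff_lintegral_rpow_enorm_lt_top (by norm_num) (by norm_num)]
  rw [fub (A := Ioo 0 T) (fun z => ‖F z‖ₑ ^ 2) ((hF.enorm).pow_const 2)] at h
  simpa using h

theorem lim_zero {T : ℝ} {h : ℝ × (Fin d → ℝ) → ℝ} (hh : MemLp h 2 (nu d T))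
    {g : ℕ → ℝ × (Fin d → ℝ) → ℝ} (hg : ∀ n, AEStronglyMeasurable (g n) (nu d T))
    (hlim : Tendsto (fun n => ∫⁻ z, ‖g n z‖ₑ ^ 2 ∂(nu d T)) atTop (𝓝 0)) :
    Tendsto (fun n => ∫ z, h z * g n z ∂(nu d T)) atTop (𝓝 0) := by
  set A : ℝ≥0∞ := ∫⁻ z, ‖h z‖ₑ ^ (2 : ℝ) ∂(nu d T) with hA
  have hAf : A ≠ ⊤ := by
    have := (eLpNorm_lt_top_iff_lintegral_rpow_enorm_lt_top (p := 2) (by norm_num)
      (by norm_num)).1 hh.2
    simpa [hA] using this.ne
  have hb : ∀ n, ‖∫ z, h z * g n z ∂(nu d T)‖ₑ ≤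
      A ^ (1 / 2 : ℝ) * (∫⁻ z, ‖g n z‖ₑ ^ 2 ∂(nu d T)) ^ (1 / 2 : ℝ) := by
    intro n
    refine (enorm_integral_le_lintegral_enorm _).trans ?_
    have h1 := ENNReal.lintegral_mul_le_Lp_mul_Lq (nu d T) (p := 2) (q := 2)
      Real.HolderConjugate.two_two (f := fun z => ‖h z‖ₑ) (g := fun z => ‖g n z‖ₑ)
      hh.1.enorm (hg n).enorm
    refine le_trans (le_of_eq ?_) (h1.trans (le_of_eq ?_))
    · refine lintegral_congr fun z => ?_
      simp [enorm_mul]
    · rw [hA]
      congr 2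
      refine lintegral_congr fun z => ?_
      norm_num
  have hc : Tendsto (fun n => A ^ (1 / 2 : ℝ) *
      (∫⁻ z, ‖g n z‖ₑ ^ 2 ∂(nu d T)) ^ (1 / 2 : ℝ)) atTop (𝓝 0) := by
    have h1 : Tendsto (fun n => (∫⁻ z, ‖g n z‖ₑ ^ 2 ∂(nu d T)) ^ (1 / 2 : ℝ)) atTop (𝓝 0) := by
      have := (ENNReal.continuous_rpow_const (y := (1 / 2 : ℝ))).continuousAt.tendsto.comp hlim
      simpa [Function.comp_def] using this
    have h2 := ENNReal.Tendsto.const_mul h1
      (Or.inr (ENNReal.rpow_ne_top_of_nonneg (by norm_num : (0 : ℝ) ≤ 1 / 2) hAf))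
    rwa [mul_zero] at h2
  have h3 : Tendsto (fun n => ‖∫ z, h z * g n z ∂(nu d T)‖ₑ) atTop (𝓝 0) :=
    tendsto_of_tendsto_of_tendsto_of_le_of_le tendsto_const_nhds hc (fun _ => bot_le) hb
  rw [tendsto_zero_iff_norm_tendsto_zero]
  have h4 := (ENNReal.tendsto_toReal ENNReal.zero_ne_top).comp h3
  simpa [Function.comp_def] using h4

theorem main (h1 : S_U1) (h2 : S_U2) (h3 : S_U3) (h4 : S_U4) (hV : S_DIV2) : S_U6 := by
  intro d T p b u G hT hb hb2 hu hG hw f hf
  have hfs := hf.1.smooth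
  have hfc : Continuous (U f) := hfs.continuous
  obtain ⟨Cf, hCf0, hCf⟩ := bdd_on hfc T
  -- measurability and integrability of the factors
  have hbm : ∀ i, Measurable (fun z : ℝ × (Fin d → ℝ) => b z.1 z.2 i) := fun i =>
    (measurable_pi_apply i).comp hb.meas
  have hbL : ∀ i, MemLp (fun z : ℝ × (Fin d → ℝ) => b z.1 z.2 i) 2 (nu d T) := by
    intro i
    refine memLp_of (hbm i) (lt_of_le_of_lt ?_ hb2)
    refine lintegral_mono fun t => lintegral_mono fun x => ?_
    refine pow_le_pow_left' ?_ 2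
    exact enorm_le_iff_norm_le.2 (norm_le_pi_norm (b t x) i)
  have huL : MemLp (U u) 2 (nu d T) := memLp_of hu.meas hu.int
  have hGL : ∀ i, MemLp (U (G i)) 2 (nu d T) := fun i => memLp_of (hG i).meas (hG i).int
  have hmS : ∀ n, SmoothPer (mol n u) := (h1 2 d T u (Or.inr rfl) hT hu).2.1
  have hmG : ∀ i n, SmoothPer (mol n (G i)) := fun i =>
    (h1 2 d T (G i) (Or.inr rfl) hT (hG i)).2.1
  -- products with bounded functions
  have hmulb : ∀ (F : ℝ × (Fin d → ℝ) → ℝ), Continuous F → ∀ i,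
      MemLp (fun z : ℝ × (Fin d → ℝ) => b z.1 z.2 i * F z) 2 (nu d T) := by
    intro F hF i
    obtain ⟨C, hC0, hC⟩ := bdd_on hF T
    refine (hbL i).of_le_mul (c := C) (((hbm i).mul hF.measurable).aestronglyMeasurable) ?_
    rw [ae_restrict_iff' (measurableSet_Ioo.prod (meas_Q d))]
    refine Eventually.of_forall fun z hz => ?_
    rw [norm_mul, mul_comm]
    exact mul_le_mul_of_nonneg_right (hC z hz) (norm_nonneg _)
  have hwL : ∀ i, MemLp (fun z : ℝ × (Fin d → ℝ) => b z.1 z.2 i * U f z) 2 (nu d T) :=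
    hmulb (U f) hfc
  have hvL : ∀ i, MemLp (fun z : ℝ × (Fin d → ℝ) => b z.1 z.2 i * pd i (f z.1) z.2) 2 (nu d T) :=
    fun i => hmulb _ (pd_cont hfs i) i
  -- convergence of the mollifications on `(0,T) × Q`
  have hconv : ∀ g : ℝ → (Fin d → ℝ) → ℝ, PL 2 T g →
      Tendsto (fun n => ∫⁻ z, ‖U (mol n g) z - U g z‖ₑ ^ 2 ∂(nu d T)) atTop (𝓝 0) := by
    intro g hg
    have h5 := h3 2 d T g (Or.inr rfl) hT hg
    refine tendsto_of_tendsto_of_tendsto_of_le_of_le tendsto_const_nhds h5 (fun _ => bot_le)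
      fun n => ?_
    have hm : Measurable fun z => ‖U (mol n g) z - U g z‖ₑ ^ 2 :=
      ((((h1 2 d T g (Or.inr rfl) hT hg).2.1 n).smooth.continuous.measurable.sub
        hg.meas).enorm).pow_const 2
    rw [show (∫⁻ t in Ioo (-1) (T + 1), ∫⁻ x in Q d, ‖mol n g t x - g t x‖ₑ ^ 2) =
      ∫⁻ z in Ioo (-1) (T + 1) ×ˢ Q d, ‖U (mol n g) z - U g z‖ₑ ^ 2 from
      fub (A := Ioo (-1) (T + 1)) (fun z => ‖U (mol n g) z - U g z‖ₑ ^ 2) hm]
    refine lintegral_mono_set (prod_mono ?_ subset_rfl)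
    intro t ht
    exact ⟨by linarith [ht.1], by linarith [ht.2]⟩
  have hmL : ∀ g : ℝ → (Fin d → ℝ) → ℝ, PL 2 T g → ∀ n, MemLp (U (mol n g)) 2 (nu d T) := by
    intro g hg n
    have hc := ((h1 2 d T g (Or.inr rfl) hT hg).2.1 n).smooth.continuous
    obtain ⟨C, hC0, hC⟩ := bdd_on hc T
    have hfin : IsFiniteMeasure (nu d T) := by
      refine ⟨?_⟩
      rw [Measure.restrict_apply_univ]
      refine lt_of_le_of_lt (measure_mono (prod_mono ?_ subset_rfl)) (vol_fin (d := d) T)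
      intro t ht
      exact ⟨by linarith [ht.1], by linarith [ht.2]⟩
    refine MemLp.of_bound hc.aestronglyMeasurable C ?_
    rw [ae_restrict_iff' (measurableSet_Ioo.prod (meas_Q d))]
    exact Eventually.of_forall fun z hz => hC z hz
  have hint : ∀ {F H : ℝ × (Fin d → ℝ) → ℝ}, MemLp F 2 (nu d T) → MemLp H 2 (nu d T) →
      Integrable (fun z => F z * H z) (nu d T) := fun hF hH => hF.integrable_mul hH
  -- passage to the limit
  have hlim : ∀ (F : ℝ × (Fin d → ℝ) → ℝ), MemLp F 2 (nu d T) →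
      ∀ g : ℝ → (Fin d → ℝ) → ℝ, PL 2 T g → MemLp (U g) 2 (nu d T) →
      Tendsto (fun n => ∫ z, F z * U (mol n g) z ∂(nu d T)) atTop
        (𝓝 (∫ z, F z * U g z ∂(nu d T))) := by
    intro F hF g hg hgL
    have h5 := lim_zero hF (fun n => ((hmL g hg n).1.sub hgL.1)) (hconv g hg)
    have h6 : ∀ n, ∫ z, F z * U (mol n g) z ∂(nu d T) =
        (∫ z, F z * (U (mol n g) z - U g z) ∂(nu d T)) + ∫ z, F z * U g z ∂(nu d T) := by
      intro n
      rw [← integral_add]
      · refine integral_congr_ae (Eventually.of_forall fun z => ?_)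
        simp only
        ring
      · exact hint hF ((hmL g hg n).sub hgL)
      · exact hint hF hgL
    simp_rw [h6]
    have h7 := h5.add_const (∫ z, F z * U g z ∂(nu d T))
    rw [zero_add] at h7
    exact h7
  set W : Fin d → ℝ × (Fin d → ℝ) → ℝ := fun i z => b z.1 z.2 i * U f z with hWdef
  set V : Fin d → ℝ × (Fin d → ℝ) → ℝ := fun i z => b z.1 z.2 i * pd i (f z.1) z.2 with hVdef
  have hJ : Tendsto (fun n => ∑ i, ((∫ z, W i z * U (mol n (G i)) z ∂(nu d T)) +
      ∫ z, V i z * U (mol n u) z ∂(nu d T))) atTop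
      (𝓝 (∑ i, ((∫ z, W i z * U (G i) z ∂(nu d T)) + ∫ z, V i z * U u z ∂(nu d T)))) :=
    tendsto_finsetSum _ fun i _ =>
      (hlim (W i) (hwL i) (G i) (hG i) (hGL i)).add (hlim (V i) (hvL i) u hu huL)
  -- the approximate identity
  obtain ⟨hfS, S, hST, hfz⟩ := hf
  have hpdz : ∀ t, S ≤ t → ∀ (i : Fin d) x, pd i (f t) x = 0 := by
    intro t ht i x
    have : f t = fun _ => 0 := funext fun y => hfz t ht y
    rw [this]
    unfold pd
    simp
  have hzero : ∀ᶠ n : ℕ in atTop, ∑ i, ((∫ z, W i z * U (mol n (G i)) z ∂(nu d T)) +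
      ∫ z, V i z * U (mol n u) z ∂(nu d T)) = 0 := by
    have h5 : Tendsto (fun n : ℕ => S + 1 / (4 * ((n : ℝ) + 1))) atTop (𝓝 (S + 0)) := by
      refine tendsto_const_nhds.add ?_
      have h6 : Tendsto (fun n : ℕ => (1 : ℝ) / ((n : ℝ) + 1)) atTop (𝓝 0) :=
        tendsto_one_div_add_atTop_nhds_zero_nat
      have h7 := h6.const_mul (1 / 4 : ℝ)
      rw [mul_zero] at h7
      refine h7.congr fun n => ?_
      have : (n : ℝ) + 1 ≠ 0 := by positivity
      field_simp
    rw [add_zero] at h5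
    filter_upwards [h5.eventually (gt_mem_nhds hST)] with n hn
    have htest : IsTest T (fun t x => mol n u t x * f t x) := by
      refine ⟨⟨?_, ?_⟩, S, hST, ?_⟩
      · exact (hmS n).smooth.mul hfs
      · intro t x k
        simp only
        rw [(hmS n).per t x k, hfS.per t x k]
      · intro t ht x
        simp only
        rw [hfz t ht x, mul_zero]
    have h6 := hV d T p b hT hb hb2 _ htest
    have hpt : ∀ z : ℝ × (Fin d → ℝ), ∑ i, b z.1 z.2 i * pd i (fun y => mol n u z.1 y * f z.1 y) z.2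
        = ∑ i, (W i z * U (mol n (G i)) z + V i z * U (mol n u) z) := by
      intro z
      refine Finset.sum_congr rfl fun i _ => ?_
      rw [pd_mul (slice (hmS n).smooth z.1 z.2) (slice hfs z.1 z.2) i]
      have h7 : f z.1 z.2 * pd i (mol n u z.1) z.2 = f z.1 z.2 * mol n (G i) z.1 z.2 := by
        rcases le_or_gt S z.1 with h8 | h8
        · rw [hfz z.1 h8 z.2, zero_mul, zero_mul]
        · rw [(h4 2 2 d T u (G i) (Or.inr rfl) (Or.inr rfl) hT hu (hG i)).2 i (hw i) n z.1 z.2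
            (by linarith)]
      rw [h7]
      simp only [hWdef, hVdef, U]
      ring
    have hI : ∀ i, Integrable (fun z => W i z * U (mol n (G i)) z + V i z * U (mol n u) z)
        (nu d T) := fun i =>
      (hint (hwL i) (hmL (G i) (hG i) n)).add (hint (hvL i) (hmL u hu n))
    have hIs : Integrable (fun z => ∑ i, (W i z * U (mol n (G i)) z + V i z * U (mol n u) z))
        (nu d T) := integrable_finset_sum _ fun i _ => hI i
    have h7 : ∫ t in Ioo 0 T, ∫ x in Q d, ∑ i, b t x i *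
        pd i (fun y => mol n u t y * f t y) x =
        ∫ z, ∑ i, (W i z * U (mol n (G i)) z + V i z * U (mol n u) z) ∂(nu d T) := by
      have h8 : IntegrableOn (fun z => ∑ i, (W i z * U (mol n (G i)) z + V i z * U (mol n u) z))
        (Ioo 0 T ×ˢ Q d) ((volume : Measure ℝ).prod (volume : Measure (Fin d → ℝ))) := by
        rw [← Measure.volume_eq_prod]; exact hIs
      have h9 := setIntegral_prod _ h8
      rw [← Measure.volume_eq_prod] at h9
      rw [h9]
      refine integral_congr_ae (Eventually.of_forall fun t => ?_)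
      refine integral_congr_ae (Eventually.of_forall fun x => ?_)
      exact hpt (t, x)
    rw [h7, integral_finset_sum _ fun i _ => hI i] at h6
    rw [← h6]
    refine Finset.sum_congr rfl fun i _ => ?_
    rw [integral_add (hint (hwL i) (hmL (G i) (hG i) n)) (hint (hvL i) (hmL u hu n))]
  have hfinal : ∑ i, ((∫ z, W i z * U (G i) z ∂(nu d T)) + ∫ z, V i z * U u z ∂(nu d T)) = 0 :=
    tendsto_nhds_unique hJ (tendsto_const_nhds.congr' (hzero.mono fun n hn => hn.symm))
  -- back to iterated integrals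
  have e1 : ∫ t in Ioo 0 T, ∫ x in Q d, u t x * ∑ i, b t x i * pd i (f t) x =
      ∑ i, ∫ z, V i z * U u z ∂(nu d T) := by
    rw [← integral_finset_sum _ fun i _ => hint (hvL i) huL]
    have h8 : IntegrableOn (fun z => ∑ i, V i z * U u z)
        (Ioo 0 T ×ˢ Q d) ((volume : Measure ℝ).prod (volume : Measure (Fin d → ℝ))) := by
      rw [← Measure.volume_eq_prod]
      exact integrable_finset_sum _ fun i _ => hint (hvL i) huL
    have h9 := setIntegral_prod _ h8
    rw [← Measure.volume_eq_prod] at h9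
    rw [h9]
    refine integral_congr_ae (Eventually.of_forall fun t => ?_)
    refine integral_congr_ae (Eventually.of_forall fun x => ?_)
    simp only [hVdef, U]
    rw [Finset.mul_sum]
    exact Finset.sum_congr rfl fun i _ => by ring
  have e2 : ∫ t in Ioo 0 T, ∫ x in Q d, (∑ i, b t x i * G i t x) * f t x =
      ∑ i, ∫ z, W i z * U (G i) z ∂(nu d T) := by
    rw [← integral_finset_sum _ fun i _ => hint (hwL i) (hGL i)]
    have h8 : IntegrableOn (fun z => ∑ i, W i z * U (G i) z)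
        (Ioo 0 T ×ˢ Q d) ((volume : Measure ℝ).prod (volume : Measure (Fin d → ℝ))) := by
      rw [← Measure.volume_eq_prod]
      exact integrable_finset_sum _ fun i _ => hint (hwL i) (hGL i)
    have h9 := setIntegral_prod _ h8
    rw [← Measure.volume_eq_prod] at h9
    rw [h9]
    refine integral_congr_ae (Eventually.of_forall fun t => ?_)
    refine integral_congr_ae (Eventually.of_forall fun x => ?_)
    simp only [hWdef, U]
    rw [Finset.sum_mul]
    exact Finset.sum_congr rfl fun i _ => by ring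
  rw [e1, e2]
  rw [Finset.sum_add_distrib] at hfinal
  linarith

end

end Pool.Agent.Helper85.ND.U6
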